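import Pool.Agent.helper55.NK.Spec
import Pool.Agent.helper55.NK.Base

set_option autoImplicit false

/-!
# The complete answer to Q2 of MP_7e34bc_co for `k ≤ 4`
-/

namespace Pool.Agent.helper37.NK

open Pool.Agent.NK Finset

/-- The sizes of the unit-free sets of nonzero 0/1 vectors of weight at most `k`. -/
def sizes (n k : ℕ) : Set ℕ :=
  {m : ℕ | ∃ S : Finset (Fin n → ℝ),
        (∀ v ∈ S, (∀ i, v i = 0 ∨ v i = 1) ∧ v ≠ 0 ∧ (univ.filter (fun i => v i = 1)).card ≤ k) ∧
        (∀ i : Fin n,
          (Pi.single i 1 : Fin n → ℝ) ∉ Submodule.span ℝ (S : Set (Fin n → ℝ))) ∧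
        S.card = m}

/-- The number of the sets with as many elements in the first half as in the second half, one or two in each. -/
def dg (n : ℕ) : ℕ := (n / 2) * ((n + 1) / 2) + (n / 2).choose 2 * ((n + 1) / 2).choose 2

/-- The value `N(n,k)` for `k ≤ 4`. -/
def val (n k : ℕ) : ℕ :=
  if k = 1 then 0 else if k = 2 then MV n 2 else if k = 3 then (if n ≤ 5 then MV n 2 else MV n 3)
  else (if n ≤ 12 then dg n else MV n 4)

/-- The general upper bound by chains. -/
theorem upper (hPER : PER_stmt) (n k V : ℕ)
    (hV : ∀ a b : ℕ, a + b = n → ∀ C : Finset (ℕ × ℕ), (∀ c ∈ C, 1 ≤ c.1 ∧ 1 ≤ c.2 ∧ c.1 + c.2 ≤ k) →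
      IsCh C → ∑ c ∈ C, a.choose c.1 * b.choose c.2 ≤ V) : ∀ m ∈ sizes n k, m ≤ V := by
  classical
  rintro m ⟨S, hS, hunit, rfl⟩
  obtain ⟨x, hx, hxS⟩ := Pool.Agent.NK.Base.exists_weights S hunit
  let F : Finset (Finset (Fin n)) := S.image (fun v => univ.filter (fun i => v i = 1))
  have hFS : F.card = S.card := by
    apply Finset.card_image_of_injOn
    intro v hv w hw hvw
    have hvw' : univ.filter (fun i => v i = 1) = univ.filter (fun i => w i = 1) := hvw
    ext i
    have h1 : v i = 1 ↔ w i = 1 := by
      have : i ∈ univ.filter (fun i => v i = 1) ↔ i ∈ univ.filter (fun i => w i = 1) := by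
        rw [hvw']
      simpa using this
    rcases (hS v hv).1 i with hv0 | hv1
    · rcases (hS w hw).1 i with hw0 | hw1
      · rw [hv0, hw0]
      · rw [hw1]; exact h1.2 hw1
    · rw [hv1]; exact (h1.1 hv1).symm
  have hFk : ∀ s ∈ F, s.Nonempty ∧ s.card ≤ k := by
    intro s hs
    obtain ⟨v, hv, rfl⟩ := Finset.mem_image.1 hs
    refine ⟨?_, (hS v hv).2.2⟩
    obtain ⟨i, hi⟩ := Function.ne_iff.1 (hS v hv).2.1
    refine ⟨i, Finset.mem_filter.2 ⟨Finset.mem_univ _, ?_⟩⟩
    rcases (hS v hv).1 i with h | h
    · exact absurd h hi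
    · exact h
  have hF0 : ∀ s ∈ F, ∑ i ∈ s, x i = 0 := by
    intro s hs
    obtain ⟨v, hv, rfl⟩ := Finset.mem_image.1 hs
    have h1 := hxS v hv
    rw [← Finset.sum_filter_add_sum_filter_not univ (fun i => v i = 1)] at h1
    have z : ∑ j ∈ univ.filter (fun j => ¬ v j = 1), v j * x j = 0 := by
      apply Finset.sum_eq_zero
      intro j hj
      have hj' := (Finset.mem_filter.1 hj).2
      rcases (hS v hv).1 j with h | h
      · rw [h, zero_mul]
      · exact absurd h hj'
    rw [z, add_zero] at h1
    rw [← h1]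
    apply Finset.sum_congr rfl
    intro j hj
    rw [(Finset.mem_filter.1 hj).2, one_mul]
  rw [← hFS]
  exact hPER n k V x hx F hFk hF0 hV

/-- Lower bound from the sets of constant weight. -/
theorem lowerM (n t k : ℕ) (ht : 2 ≤ t) (htk : t ≤ k) (htn : t ≤ n) : MV n t ∈ sizes n k := by
  obtain ⟨S, hS, hunit, hcard⟩ := (Pool.Agent.NK.Base.uniform_result n t (by omega) htn).1
  rw [if_neg (by omega)] at hcard
  refine ⟨S, fun v hv => ⟨(hS v hv).1, ?_, (hS v hv).2.le.trans htk⟩, hunit, hcard⟩
  rintro rfl
  have h1 := (hS 0 hv).2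
  have h2 : (univ.filter (fun i : Fin n => (0 : Fin n → ℝ) i = 1)) = ∅ := by
    apply Finset.filter_eq_empty_iff.2
    intro i _ h
    simp at h
  rw [h2, Finset.card_empty] at h1
  omega

/-- Lower bound from the sets with as many elements in `A` as outside of `A`, one or two in each. -/
theorem lowerD (n : ℕ) : dg n ∈ sizes n 4 := by
  classical
  let A : Finset (Fin n) := univ.filter (fun i => i.val < n / 2)
  have hAcard : A.card = n / 2 := by
    have h := Fin.card_filter_val_lt (n := n) (m := n / 2)
    rw [min_eq_right (Nat.div_le_self n 2)] at h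
    exact h
  have hAccard : Aᶜ.card = (n + 1) / 2 := by
    rw [Finset.card_compl, hAcard, Fintype.card_fin]
    omega
  let G : Finset (Finset (Fin n) × Finset (Fin n)) :=
    (A.powersetCard 1 ×ˢ Aᶜ.powersetCard 1) ∪ (A.powersetCard 2 ×ˢ Aᶜ.powersetCard 2)
  have hG : ∀ p ∈ G, p.1 ⊆ A ∧ p.2 ⊆ Aᶜ ∧ p.1.card = p.2.card ∧ 1 ≤ p.1.card ∧ p.1.card ≤ 2 := by
    intro p hp
    simp only [G, Finset.mem_union, Finset.mem_product, Finset.mem_powersetCard] at hp
    rcases hp with ⟨⟨h1, h2⟩, h3, h4⟩ | ⟨⟨h1, h2⟩, h3, h4⟩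
    · exact ⟨h1, h3, by omega, by omega, by omega⟩
    · exact ⟨h1, h3, by omega, by omega, by omega⟩
  have hGcard : G.card = dg n := by
    have hdisj : Disjoint (A.powersetCard 1 ×ˢ Aᶜ.powersetCard 1)
        (A.powersetCard 2 ×ˢ Aᶜ.powersetCard 2) := by
      rw [Finset.disjoint_left]
      intro p hp hq
      simp only [Finset.mem_product, Finset.mem_powersetCard] at hp hq
      have := hp.1.2
      have := hq.1.2
      omega
    rw [Finset.card_union_of_disjoint hdisj, Finset.card_product, Finset.card_product,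
      Finset.card_powersetCard, Finset.card_powersetCard, Finset.card_powersetCard,
      Finset.card_powersetCard, hAcard, hAccard, Nat.choose_one_right, Nat.choose_one_right]
    rfl
  let ind : Finset (Fin n) × Finset (Fin n) → (Fin n → ℝ) := fun p j => if j ∈ p.1 ∪ p.2 then 1 else 0
  have hsupp : ∀ p : Finset (Fin n) × Finset (Fin n), univ.filter (fun i => ind p i = 1) = p.1 ∪ p.2 := by
    intro p
    ext j
    rw [Finset.mem_filter]
    by_cases hj : j ∈ p.1 ∪ p.2
    · simp only [ind, if_pos hj, hj, and_true, Finset.mem_univ]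
    · simp only [ind, if_neg hj, hj, iff_false, Finset.mem_univ, true_and]
      norm_num
  have hcap : ∀ p ∈ G, (p.1 ∪ p.2) ∩ A = p.1 ∧ (p.1 ∪ p.2) ∩ Aᶜ = p.2 := by
    intro p hp
    obtain ⟨h1, h2, -⟩ := hG p hp
    constructor
    · ext j
      simp only [Finset.mem_inter, Finset.mem_union]
      constructor
      · rintro ⟨h | h, hA⟩
        · exact h
        · exact absurd hA (Finset.mem_compl.1 (h2 h))
      · intro h
        exact ⟨Or.inl h, h1 h⟩
    · ext j
      simp only [Finset.mem_inter, Finset.mem_union]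
      constructor
      · rintro ⟨h | h, hA⟩
        · exact absurd (h1 h) (Finset.mem_compl.1 hA)
        · exact h
      · intro h
        exact ⟨Or.inr h, h2 h⟩
  have hinj : Set.InjOn ind (G : Set (Finset (Fin n) × Finset (Fin n))) := by
    intro p hp q hq hpq
    have h1 : p.1 ∪ p.2 = q.1 ∪ q.2 := by rw [← hsupp p, ← hsupp q, hpq]
    have hp' := hcap p hp
    have hq' := hcap q hq
    apply Prod.ext
    · rw [← hp'.1, ← hq'.1, h1]
    · rw [← hp'.2, ← hq'.2, h1]
  have hdj : ∀ p ∈ G, Disjoint p.1 p.2 := by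
    intro p hp
    obtain ⟨h1, h2, -⟩ := hG p hp
    rw [Finset.disjoint_left]
    intro j hj hj'
    exact (Finset.mem_compl.1 (h2 hj')) (h1 hj)
  let x : Fin n → ℝ := fun j => if j ∈ A then 1 else -1
  have hx : ∀ j, x j ≠ 0 := by
    intro j
    by_cases hj : j ∈ A
    · simp only [x, if_pos hj]; norm_num
    · simp only [x, if_neg hj]; norm_num
  let L : (Fin n → ℝ) →ₗ[ℝ] ℝ := ∑ j, x j • (LinearMap.proj j : (Fin n → ℝ) →ₗ[ℝ] ℝ)
  have hL : ∀ v : Fin n → ℝ, L v = ∑ j, x j * v j := by
    intro v
    simp [L, LinearMap.sum_apply]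
  refine ⟨G.image ind, ?_, ?_, ?_⟩
  · intro v hv
    obtain ⟨p, hp, rfl⟩ := Finset.mem_image.1 hv
    obtain ⟨h1, h2, h3, h4, h5⟩ := hG p hp
    refine ⟨fun i => ?_, ?_, ?_⟩
    · by_cases hi : i ∈ p.1 ∪ p.2
      · right; simp only [ind, if_pos hi]
      · left; simp only [ind, if_neg hi]
    · intro h0
      obtain ⟨j, hj⟩ := Finset.card_pos.1 (lt_of_lt_of_le one_pos h4)
      have h6 : ind p j = 1 := by simp only [ind, if_pos (Finset.mem_union_left _ hj)]
      rw [h0] at h6
      simp at h6
    · rw [hsupp, Finset.card_union_of_disjoint (hdj p hp)]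
      omega
  · intro i hi
    have hle : Submodule.span ℝ ((G.image ind : Finset (Fin n → ℝ)) : Set (Fin n → ℝ)) ≤
        LinearMap.ker L := by
      rw [Submodule.span_le]
      intro v hv
      obtain ⟨p, hp, rfl⟩ := Finset.mem_image.1 (Finset.mem_coe.1 hv)
      obtain ⟨h1, h2, h3, h4, h5⟩ := hG p hp
      rw [SetLike.mem_coe, LinearMap.mem_ker, hL]
      have e1 : ∑ j, x j * ind p j = ∑ j ∈ p.1 ∪ p.2, x j := by
        rw [← Finset.sum_filter_add_sum_filter_not univ (fun j => j ∈ p.1 ∪ p.2)]
        have z : ∑ j ∈ univ.filter (fun j => ¬ j ∈ p.1 ∪ p.2), x j * ind p j = 0 := by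
          apply Finset.sum_eq_zero
          intro j hj
          have hj' := (Finset.mem_filter.1 hj).2
          simp only [ind, if_neg hj', mul_zero]
        rw [z, add_zero]
        have e : univ.filter (fun j => j ∈ p.1 ∪ p.2) = p.1 ∪ p.2 := by
          ext j; simp
        rw [e]
        apply Finset.sum_congr rfl
        intro j hj
        simp only [ind, if_pos hj, mul_one]
      rw [e1, Finset.sum_union (hdj p hp)]
      have e2 : ∑ j ∈ p.1, x j = ∑ j ∈ p.1, (1 : ℝ) := by
        apply Finset.sum_congr rfl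
        intro j hj
        simp only [x, if_pos (h1 hj)]
      have e3 : ∑ j ∈ p.2, x j = ∑ j ∈ p.2, (-1 : ℝ) := by
        apply Finset.sum_congr rfl
        intro j hj
        simp only [x, if_neg (Finset.mem_compl.1 (h2 hj))]
      rw [e2, e3, Finset.sum_const, Finset.sum_const, h3]
      simp
    have h1 := hle hi
    rw [LinearMap.mem_ker, hL] at h1
    have h2 : ∑ j, x j * (Pi.single i 1 : Fin n → ℝ) j = x i := by
      simp [Pi.single_apply]
    rw [h2] at h1
    exact hx i h1
  · rw [Finset.card_image_of_injOn hinj, hGcard]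

/-- The strict chains with sums at most 4. -/
theorem chains (k : ℕ) (hk : k ≤ 4) (C : Finset (ℕ × ℕ))
    (hC : ∀ c ∈ C, 1 ≤ c.1 ∧ 1 ≤ c.2 ∧ c.1 + c.2 ≤ k) (hch : IsCh C) :
    C = ∅ ∨ (∃ c, C = {c}) ∨ (k = 4 ∧ C = {(1, 1), (2, 2)}) := by
  classical
  rcases C.eq_empty_or_nonempty with h0 | ⟨c, hc⟩
  · exact Or.inl h0
  right
  by_cases hs : ∀ d ∈ C, d = c
  · left
    exact ⟨c, Finset.eq_singleton_iff_unique_mem.2 ⟨hc, hs⟩⟩
  · right
    push Not at hs
    obtain ⟨d, hd, hdc⟩ := hs
    have key : ∀ e ∈ C, ∀ f ∈ C, e ≠ f → (e = (1, 1) ∧ f = (2, 2)) ∨ (e = (2, 2) ∧ f = (1, 1)) := by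
      intro e he f hf hef
      have h1 := hC e he
      have h2 := hC f hf
      obtain ⟨e1, e2⟩ := e
      obtain ⟨f1, f2⟩ := f
      simp only at h1 h2
      rcases hch _ he _ hf hef with h | h
      · simp only at h
        left
        constructor
        · ext <;> simp only <;> omega
        · ext <;> simp only <;> omega
      · simp only at h
        right
        constructor
        · ext <;> simp only <;> omega
        · ext <;> simp only <;> omega
    have hmem : (1, 1) ∈ C ∧ (2, 2) ∈ C := by
      rcases key d hd c hc hdc with ⟨h1, h2⟩ | ⟨h1, h2⟩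
      · rw [h1] at hd; rw [h2] at hc; exact ⟨hd, hc⟩
      · rw [h1] at hd; rw [h2] at hc; exact ⟨hc, hd⟩
    refine ⟨?_, ?_⟩
    · have := hC _ hmem.2
      simp only at this
      omega
    · ext e
      rw [Finset.mem_insert, Finset.mem_singleton]
      constructor
      · intro he
        by_cases h1 : e = (1, 1)
        · exact Or.inl h1
        · rcases key e he _ hmem.1 h1 with ⟨h2, h3⟩ | ⟨h2, h3⟩
          · exact absurd h2 h1
          · exact Or.inr h2
      · rintro (h | h)
        · rw [h]; exact hmem.1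
        · rw [h]; exact hmem.2

theorem small2 : ∀ n < 40, 2 ≤ n → MV n 2 ≤ val n 3 ∧ (3 ≤ n → MV n 3 ≤ val n 3) := by
  decide +kernel

theorem small4 : ∀ n < 40, 4 ≤ n → MV n 2 ≤ val n 4 ∧ MV n 3 ≤ val n 4 ∧ MV n 4 ≤ val n 4 := by
  decide +kernel

theorem small5 : ∀ n < 40, 4 ≤ n → ∀ a < n + 1, a * (n - a) + a.choose 2 * (n - a).choose 2 ≤ val n 4 := by
  decide +kernel

/-- **K4.** The complete answer for `k ≤ 4`. -/
theorem K4 (hPER : PER_stmt) (hMON : MON_stmt) (hTWO : TWO_stmt) (n k : ℕ) (hk : 1 ≤ k) (hk4 : k ≤ 4) (hkn : k ≤ n) :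
    IsGreatest (sizes n k) (val n k) := by
  classical
  have prod : ∀ a b i j : ℕ, a + b = n → 1 ≤ i → 1 ≤ j → i + j ≤ n →
      a.choose i * b.choose j ≤ MV n (i + j) := by
    intro a b i j hab hi hj hij
    have h := Pool.Agent.NK.Base.prod_le a b i j hi hj (by omega)
    rw [hab] at h
    exact h
  constructor
  · obtain rfl | rfl | rfl | rfl : k = 1 ∨ k = 2 ∨ k = 3 ∨ k = 4 := by omega
    · refine ⟨∅, by simp, fun i => ?_, by simp [val]⟩
      rw [Finset.coe_empty, Submodule.span_empty, Submodule.mem_bot]
      intro h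
      have := congrFun h i
      simp at this
    · exact lowerM n 2 2 (by omega) (by omega) hkn
    · unfold val
      rw [if_neg (by omega), if_neg (by omega), if_pos rfl]
      split_ifs
      · exact lowerM n 2 3 (by omega) (by omega) (by omega)
      · exact lowerM n 3 3 (by omega) (by omega) hkn
    · unfold val
      rw [if_neg (by omega), if_neg (by omega), if_neg (by omega)]
      split_ifs
      · exact lowerD n
      · exact lowerM n 4 4 (by omega) (by omega) hkn
  · apply upper hPER
    intro a b hab C hC hch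
    -- single products
    have h2v : 2 ≤ k → MV n 2 ≤ val n k := by
      intro h2
      obtain rfl | rfl | rfl : k = 2 ∨ k = 3 ∨ k = 4 := by omega
      · exact le_of_eq rfl
      · rcases lt_or_ge n 40 with h | h
        · exact (small2 n h (by omega)).1
        · have : val n 3 = MV n 3 := by
            unfold val
            rw [if_neg (by omega), if_neg (by omega), if_pos rfl, if_neg (by omega)]
          rw [this]
          exact hMON n 2 3 (by omega) (by omega) (by omega)
      · rcases lt_or_ge n 40 with h | h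
        · exact (small4 n h (by omega)).1
        · have : val n 4 = MV n 4 := by
            unfold val
            rw [if_neg (by omega), if_neg (by omega), if_neg (by omega), if_neg (by omega)]
          rw [this]
          exact hMON n 2 4 (by omega) (by omega) (by omega)
    have h3v : 3 ≤ k → MV n 3 ≤ val n k := by
      intro h3
      obtain rfl | rfl : k = 3 ∨ k = 4 := by omega
      · rcases lt_or_ge n 40 with h | h
        · exact (small2 n h (by omega)).2 hkn
        · have : val n 3 = MV n 3 := by
            unfold val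
            rw [if_neg (by omega), if_neg (by omega), if_pos rfl, if_neg (by omega)]
          rw [this]
      · rcases lt_or_ge n 40 with h | h
        · exact (small4 n h (by omega)).2.1
        · have : val n 4 = MV n 4 := by
            unfold val
            rw [if_neg (by omega), if_neg (by omega), if_neg (by omega), if_neg (by omega)]
          rw [this]
          exact hMON n 3 4 (by omega) (by omega) (by omega)
    have h4v : 4 ≤ k → MV n 4 ≤ val n k := by
      intro h4
      obtain rfl : k = 4 := by omega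
      rcases lt_or_ge n 40 with h | h
      · exact (small4 n h (by omega)).2.2
      · have : val n 4 = MV n 4 := by
          unfold val
          rw [if_neg (by omega), if_neg (by omega), if_neg (by omega), if_neg (by omega)]
        rw [this]
    rcases chains k hk4 C hC hch with h0 | ⟨c, rfl⟩ | ⟨rfl, rfl⟩
    · rw [h0]; simp
    · rw [Finset.sum_singleton]
      obtain ⟨h1, h2, h3⟩ := hC c (Finset.mem_singleton_self c)
      refine le_trans (prod a b c.1 c.2 hab h1 h2 (by omega)) ?_
      obtain h | h | h : c.1 + c.2 = 2 ∨ c.1 + c.2 = 3 ∨ c.1 + c.2 = 4 := by omega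
      · rw [h]; exact h2v (by omega)
      · rw [h]; exact h3v (by omega)
      · rw [h]; exact h4v (by omega)
    · rw [Finset.sum_pair (by decide)]
      simp only [Nat.choose_one_right]
      rcases lt_or_ge n 40 with h | h
      · have := small5 n h (by omega) a (by omega)
        have e : n - a = b := by omega
        rw [e] at this
        exact this
      · have e : val n 4 = MV n 4 := by
          unfold val
          rw [if_neg (by omega), if_neg (by omega), if_neg (by omega), if_neg (by omega)]
        rw [e]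
        have h1 := hTWO a b 2 2 {(1, 1)} (by omega) (by omega) (by omega) (by
          intro c hc d hd hcd
          rw [Finset.mem_singleton] at hc hd
          exact absurd (hc.trans hd.symm) hcd) (by
          intro c hc
          rw [Finset.mem_singleton] at hc
          subst hc
          simp)
        rw [Finset.sum_singleton, hab] at h1
        simp only [Nat.choose_one_right] at h1
        rw [show (2 : ℕ) + 2 = 4 from rfl] at h1
        omega

end Pool.Agent.helper37.NK
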